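import Mathlib

/-!
# Stabilizers in representations by commuting operators
-/

namespace Helper94GR

open scoped IsMulCommutative

/-- A non-zero real representation of a finite group whose operators commute contains a non-zero
vector whose stabilizer has cyclic quotient. -/
theorem exists_cyclic_stabilizer {A V : Type} [Group A] [Finite A] [AddCommGroup V] [Module ℝ V]
    (ρ : Representation ℝ A V) (hcomm : ∀ g h, ρ g * ρ h = ρ h * ρ g) (v : V) (hv : v ≠ 0) :
    ∃ w : V, w ≠ 0 ∧ ∃ g : A, ∀ x : A, ∃ n : ℤ, ρ (x * g ^ n) w = w := by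
  classical
  have hc : ∀ a ∈ Set.range ρ, ∀ b ∈ Set.range ρ, a * b = b * a := by
    rintro _ ⟨g, rfl⟩ _ ⟨h, rfl⟩
    exact hcomm g h
  have := Algebra.isMulCommutative_adjoin ℝ hc
  let S : Subalgebra ℝ (V →ₗ[ℝ] V) := Algebra.adjoin ℝ (Set.range ρ)
  have hfin : Module.Finite ℝ S := by
    have h1 : Subalgebra.toSubmodule S = Submodule.span ℝ (Set.range ρ) := by
      apply Algebra.adjoin_eq_span_of_subset
      have h2 : (Submonoid.closure (Set.range ρ) : Set (V →ₗ[ℝ] V)) = Set.range ρ := by
        rw [← MonoidHom.coe_mrange, Submonoid.closure_eq]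
      rw [h2]
      exact Submodule.subset_span
    have h3 : (Subalgebra.toSubmodule S).FG := by
      rw [h1]
      exact Submodule.fg_span (Set.finite_range ρ)
    exact Module.Finite.iff_fg.2 h3
  have hN : IsNoetherianRing S := isNoetherian_of_tower ℝ (inferInstance : IsNoetherian ℝ S)
  obtain ⟨P, hP, _⟩ := exists_le_isAssociatedPrime_of_isNoetherianRing S v hv
  rw [isAssociatedPrime_iff] at hP
  obtain ⟨hprime, w, hw⟩ := hP
  have hmem : ∀ s : S, s ∈ P ↔ (s : V →ₗ[ℝ] V) w = 0 := by
    intro s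
    rw [hw, Submodule.mem_colon_singleton, Submodule.mem_bot]
    rfl
  let θ : A →* (S ⧸ P) :=
    { toFun := fun g => Ideal.Quotient.mk P ⟨ρ g, Algebra.subset_adjoin ⟨g, rfl⟩⟩
      map_one' := by
        rw [← map_one (Ideal.Quotient.mk P)]
        congr 1
        exact Subtype.ext (map_one ρ)
      map_mul' := fun g h => by
        rw [← map_mul (Ideal.Quotient.mk P)]
        congr 1
        exact Subtype.ext (map_mul ρ g h) }
  have hθ : ∀ g, θ g = 1 → ρ g w = w := by
    intro g hg
    have h1 : Ideal.Quotient.mk P (⟨ρ g, Algebra.subset_adjoin ⟨g, rfl⟩⟩ : S) =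
        Ideal.Quotient.mk P 1 := by
      rw [map_one]
      exact hg
    rw [Ideal.Quotient.eq, hmem] at h1
    have h2 : ρ g w - w = 0 := h1
    exact sub_eq_zero.1 h2
  have hfr : Finite θ.toHomUnits.range :=
    Finite.of_surjective θ.toHomUnits.rangeRestrict θ.toHomUnits.rangeRestrict_surjective
  have hcyc : IsCyclic θ.toHomUnits.range := by
    refine isCyclic_of_injective_ringHom
      ((Units.coeHom (S ⧸ P)).comp θ.toHomUnits.range.subtype) ?_
    exact Units.val_injective.comp Subtype.val_injective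
  obtain ⟨⟨_, g, rfl⟩, hg⟩ := hcyc.exists_generator
  refine ⟨w, ?_, g, fun x => ?_⟩
  · intro h0
    apply hprime.ne_top
    rw [Ideal.eq_top_iff_one, hmem, h0]
    exact map_zero _
  · obtain ⟨n, hn⟩ := hg ⟨θ.toHomUnits x, x, rfl⟩
    refine ⟨-n, hθ _ ?_⟩
    have h1 : θ.toHomUnits g ^ n = θ.toHomUnits x := congrArg Subtype.val hn
    have h2 : θ.toHomUnits (x * g ^ (-n)) = 1 := by
      rw [map_mul, map_zpow, zpow_neg, h1, mul_inv_cancel]
    have h3 := congrArg Units.val h2
    exact h3

end Helper94GR
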