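import Pool.Agent.helper69.GA.Defs

/-!
# Regulators and models of quotients by finite groups

Definitions for the theorem on group quotients.
-/

open AlgebraicGeometry CategoryTheory CategoryTheory.Limits Helper77Reg Helper69ZC Helper69GA

namespace Helper94GR

/-- Morphisms `X ← T → Z → Y` (`a`, `z`, `w`), `r : X ⟶ Q` and `u : Z ⟶ Q`, and a point `η` of
`T`. -/
structure Diagram (X Y : Scheme.{0}) where
  {T Q Z : Scheme.{0}}
  a : T ⟶ X
  z : T ⟶ Z
  r : X ⟶ Q
  u : Z ⟶ Q
  w : Z ⟶ Y
  η : T

/-- The morphism from `T` to `Y`. -/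
def Diagram.b {X Y : Scheme.{0}} (D : Diagram X Y) : D.T ⟶ Y := D.z ≫ D.w

/-- The point `η` is generic, its image is generic, and the extension of residue fields is
finite. -/
def IsGenericallyFinite {T X : Scheme.{0}} (a : T ⟶ X) (η : T) : Prop :=
  IsGenericPoint η Set.univ ∧ IsGenericPoint (a η) Set.univ ∧ a.residueDegree η ≠ 0

/-- The morphism `r` is invariant under `H`, and the fibre product of `X` with itself over `Q` is
covered by the graphs of the elements of `H`. -/
def IsQuotientBy {Γ : Type} [Group Γ] {X Q : Scheme.{0}} (ρ : Γ → (X ⟶ X)) (H : Subgroup Γ)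
    (r : X ⟶ Q) : Prop :=
  (∀ h ∈ H, ρ h ≫ r = r) ∧ ∀ x : ↥(pullback r r), ∃ h ∈ H, ∃ g : X ⟶ pullback r r,
    g ≫ pullback.fst r r = 𝟙 X ∧ g ≫ pullback.snd r r = ρ h ∧ x ∈ Set.range g

/-- The diagram `D` shows that the function field of `Y` is the field of invariants of the group `H`
in the function field of the `d`-dimensional scheme `X`: the extensions of residue fields given by
`u` and `w` at the image of the generic point of `T` are trivial, and `T` is generically finite over
`X` and `Y`. -/
structure IsModel {Γ : Type} [Group Γ] {X Y : Scheme.{0}} (ρ : Γ → (X ⟶ X)) (H : Subgroup Γ)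
    (D : Diagram X Y) (d : ℕ) : Prop where
  arithmetic : IsArithmetic D.T d
  quotient : IsQuotientBy ρ H D.r
  comm : D.a ≫ D.r = D.z ≫ D.u
  overX : IsGenericallyFinite D.a D.η
  overY : IsGenericallyFinite D.b D.η
  birationalQ : D.u.residueDegree (D.z D.η) = 1
  birationalY : D.w.residueDegree (D.z D.η) = 1

/-- `Y` is birational to the quotient of the `d`-dimensional scheme `X` by `H`. -/
def IsBirationalModel {Γ : Type} [Group Γ] {X : Scheme.{0}} (ρ : Γ → (X ⟶ X)) (H : Subgroup Γ)
    (Y : Scheme.{0}) (d : ℕ) : Prop :=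
  ∃ D : Diagram X Y, IsModel ρ H D d

/-- `Y` is birational to the quotient of the `d`-dimensional scheme `X` by `H`, and has a morphism
to it. -/
def IsModelOver {Γ : Type} [Group Γ] {X : Scheme.{0}} (ρ : Γ → (X ⟶ X)) (H : Subgroup Γ)
    (Y : Scheme.{0}) (d : ℕ) : Prop :=
  ∃ D : Diagram X Y, IsModel ρ H D d ∧ IsIso D.w

/-- Weight `d` and degree `2d-1` or `2d-2`. -/
def Low (d : ℕ) (p q : ℤ) : Prop :=
  q = d ∧ (p = 2 * d - 1 ∨ p = 2 * d - 2)

/-- Pull-back from `X` to `T`, push-forward to `Y`, pull-back to `T` and push-forward to `X`. -/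
noncomputable def around (G : GysinData) {X Y : Scheme.{0}} (D : Diagram X Y) (p q : ℤ) :
    Mor (G.reg X p q) (G.reg X p q) :=
  (((G.pull D.a p q).comp (G.push D.b p q p q)).comp (G.pull D.b p q)).comp (G.push D.a p q p q)

/-- `c • m = c' • ∑ h, n h` on the source and on the target of the regulator. -/
def IsMultipleOfSum {F : LinMap} {ι : Type} [Fintype ι] (c c' : ℝ) (m : Mor F F)
    (n : ι → Mor F F) : Prop :=
  (∀ x, c • m.a x = c' • ∑ h, (n h).a x) ∧ ∀ x, c • m.b x = c' • ∑ h, (n h).b x

/-- Pull-back from `X` to `T`, push-forward to `Y`, pull-back to `T` and push-forward to `X` together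
are the sum of the push-forwards along the elements of `H` multiplied by the product of the degrees
of `T` over `X` and over `Y` and divided by the order of `H`; in all degrees and weights if `Y` has a
morphism to the quotient, and in weight `d` and degree `2d-1` or `2d-2` if `Y` is only birational to
it. -/
def QuotientFormula (G : GysinData) : Prop :=
  ∀ {Γ : Type} [Group Γ] {X Y : Scheme.{0}} {d : ℕ} (ρ : Γ → (X ⟶ X)) (H : Subgroup Γ)
    [Fintype H] (D : Diagram X Y), IsAction ρ → IsArithmetic X d → IsArithmetic Y d →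
    IsModel ρ H D d → ∀ p q : ℤ, (IsIso D.w ∨ Low d p q) →
    IsMultipleOfSum (Fintype.card H) (D.a.residueDegree D.η * D.b.residueDegree D.η)
      (around G D p q) fun h : H => G.push (ρ h) p q p q

/-- The regulator in degree `2d-1` and weight `d`. -/
abbrev top (G : GysinData) (X : Scheme.{0}) (d : ℕ) : LinMap := G.reg X (2 * d - 1) d

/-- The push-forward in degree `2d-1` and weight `d`. -/
abbrev pushTop (G : GysinData) {Y X : Scheme.{0}} (f : Y ⟶ X) (d : ℕ) :
    Mor (top G Y d) (top G X d) :=
  G.push f (2 * d - 1) d (2 * d - 1) d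

/-- A regulator with pull-backs, push-forwards and a trace (the push-forward to the real Deligne
cohomology of the spectrum of the integers in degree and weight one, which is `ℝ`). -/
structure TraceData extends GysinData where
  /-- the trace -/
  tr (X : Scheme.{0}) (d : ℕ) : (top toGysinData X d).B →ₗ[ℝ] ℝ

/-- The trace is compatible with push-forwards. -/
def TraceFormula (G : TraceData) : Prop :=
  ∀ {Y X : Scheme.{0}} {d : ℕ} (f : Y ⟶ X), IsArithmetic Y d → IsArithmetic X d →
    ∀ x, G.tr X d ((pushTop G.toGysinData f d).b x) = G.tr Y d x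

/-- The formal properties of the trace. -/
structure IsTrace (G : TraceData) : Prop where
  onto : ∀ {X : Scheme.{0}} {d : ℕ}, IsArithmetic X d → IsFlat X → Function.Surjective (G.tr X d)
  kills : ∀ {X : Scheme.{0}} {d : ℕ}, IsArithmetic X d → ∀ x,
    G.tr X d ((top G.toGysinData X d).f x) = 0
  push : TraceFormula G

/-- The formal properties of the regulator. -/
structure IsGaloisTheory (G : TraceData) : Prop where
  gysin : IsGysinTheory G.toGysinData
  quotient : QuotientFormula G.toGysinData
  trace : IsTrace G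

/-- A scheme `X` covered by a scheme `X'` on which a group `Γ` acts, a subgroup `K` and a family `H`
of subgroups of `Γ`, and a family `Y` of schemes. -/
structure Cover (X : Scheme.{0}) (Γ ι : Type) [Group Γ] where
  {X' : Scheme.{0}}
  f : X' ⟶ X
  ξ : X'
  ρ : Γ → (X' ⟶ X')
  K : Subgroup Γ
  H : ι → Subgroup Γ
  Y : ι → Scheme.{0}

/-- `X'` and `Y j` are arithmetic schemes of dimension `d`, the morphism from `X'` to `X` is
generically finite, the group `Γ` acts faithfully on `X'`, its subgroup `K` acts over `X`, and `Y j`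
is birational to the quotient of `X'` by `H j` and flat. -/
structure IsCover {X : Scheme.{0}} {Γ ι : Type} [Group Γ] (C : Cover X Γ ι) (d : ℕ) : Prop where
  arithmetic : IsArithmetic C.X' d
  finite : IsGenericallyFinite C.f C.ξ
  action : IsAction C.ρ
  invariant : ∀ k ∈ C.K, C.ρ k ≫ C.f = C.f
  arithmeticY : ∀ j, IsArithmetic (C.Y j) d
  flatY : ∀ j, IsFlat (C.Y j)
  birational : ∀ j, IsBirationalModel C.ρ (C.H j) (C.Y j) d

/-- The `Y j` have morphisms to the quotients of `X'`. -/
def HasMorphisms {X : Scheme.{0}} {Γ ι : Type} [Group Γ] (C : Cover X Γ ι) (d : ℕ) : Prop :=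
  ∀ j, IsModelOver C.ρ (C.H j) (C.Y j) d

/-- `R` is a retract of a finite sum of members of the family `E`. -/
def IsRetractOfSum {ι : Type} (R : LinMap) (E : ι → LinMap) : Prop :=
  ∃ (n : ℕ) (k : Fin n → ι), R.IsRetractOf (LinMap.pi fun m => E (k m))

/-- The group `Γ` is abelian modulo `K`, and all subgroups `S` of `Γ` containing `K` for which `Γ`
is cyclic modulo `S` are among the `H j`. -/
def IsAbelianCase {Γ ι : Type} [Group Γ] (H : ι → Subgroup Γ) (K : Subgroup Γ) : Prop :=
  (∀ g h : Γ, g * h * g⁻¹ * h⁻¹ ∈ K) ∧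
    ∀ S : Subgroup Γ, K ≤ S → (∃ g, ∀ x, ∃ n : ℤ, x * g ^ n ∈ S) → ∃ j, H j = S

/-- The `H j` are at least two groups that form a partition of a subgroup `D` of `Γ` modulo
`K`. -/
def IsPartition {Γ ι : Type} [Group Γ] (H : ι → Subgroup Γ) (K : Subgroup Γ) : Prop :=
  2 ≤ Nat.card ι ∧ ∃ D : Subgroup Γ, (∀ j, K ≤ H j ∧ H j ≤ D) ∧ ∀ g ∈ D, g ∉ K → ∃! j, g ∈ H j

end Helper94GR
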