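import Pool.Agent.helper69.GA.Alg
import Pool.Agent.helper94.GR.Cyc

/-!
# Families of subgroups that dominate a subgroup
-/

open Helper69GA

namespace Helper94GR

/-- Groups that form a partition of a group modulo `K`. -/
theorem dominates_of_partition {Γ ι : Type} [Group Γ] [Finite Γ] [Fintype ι]
    (H : ι → Subgroup Γ) (K D : Subgroup Γ) (hKH : ∀ j, K ≤ H j) (hHD : ∀ j, H j ≤ D)
    (hpart : ∀ g ∈ D, g ∉ K → ∃! j, g ∈ H j) (hι : 2 ≤ Fintype.card ι) : Dominates H K := by
  classical
  intro V _ _ _ hV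
  obtain ⟨v, hv0, hvK⟩ := hV
  by_contra hcon
  push Not at hcon
  let _ := Fintype.ofFinite Γ
  have hn : ∀ j, nrm (H j) • v = 0 := by
    intro j
    by_contra hne
    refine hcon j _ hne fun h hh => ?_
    rw [smul_smul, of_mul_nrm (H j) hh]
  obtain ⟨j0⟩ : Nonempty ι := by
    rw [← Fintype.card_pos_iff]
    omega
  have ht : nrm D • v = 0 := by
    by_contra hne
    refine hcon j0 _ hne fun h hh => ?_
    rw [smul_smul, of_mul_nrm D (hHD j0 hh)]
  have hsum : ∀ (L : Subgroup Γ), nrm L = ∑ g : Γ, if g ∈ L then MonoidAlgebra.of ℝ Γ g else 0 := by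
    intro L
    let _ := Fintype.ofFinite L
    show ∑ h : L, MonoidAlgebra.of ℝ Γ h = _
    rw [← Finset.sum_filter]
    exact (Finset.sum_subtype (Finset.univ.filter fun g : Γ => g ∈ L) (fun g => by simp)
      fun g => MonoidAlgebra.of ℝ Γ g).symm
  have hkey : ∑ j, nrm (H j) = nrm D + (Fintype.card ι - 1) • nrm K := by
    simp only [hsum]
    rw [Finset.sum_comm, Finset.smul_sum, ← Finset.sum_add_distrib]
    refine Finset.sum_congr rfl fun g _ => ?_
    by_cases h1 : g ∈ K
    · have h2 : g ∈ D := hHD j0 (hKH j0 h1)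
      have h3 : ∀ j, (if g ∈ H j then MonoidAlgebra.of ℝ Γ g else 0) =
          MonoidAlgebra.of ℝ Γ g := fun j => if_pos (hKH j h1)
      rw [Finset.sum_congr rfl fun j _ => h3 j, if_pos h1, if_pos h2, Finset.sum_const,
        Finset.card_univ]
      conv_rhs => rw [← one_smul ℕ (MonoidAlgebra.of ℝ Γ g), smul_smul, mul_one, ← add_smul]
      congr 1
      omega
    · rw [if_neg h1, smul_zero, add_zero]
      by_cases h2 : g ∈ D
      · obtain ⟨j, hj, hu⟩ := hpart g h2 h1
        rw [if_pos h2, Finset.sum_eq_single j, if_pos hj]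
        · intro i _ hi
          rw [if_neg fun h => hi (hu i h)]
        · intro h
          exact absurd (Finset.mem_univ j) h
      · rw [if_neg h2]
        exact Finset.sum_eq_zero fun j _ => if_neg fun h => h2 (hHD j h)
  have h5 := congrArg (fun r => r • v) hkey
  simp only [Finset.sum_smul, hn, Finset.sum_const_zero, add_smul, ht, zero_add] at h5
  rw [smul_assoc, nrm_smul_of_fixes K v hvK, smul_smul] at h5
  have h6 : (Fintype.card ι - 1) * Nat.card K ≠ 0 :=
    mul_ne_zero (by omega) Nat.card_pos.ne'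
  exact hv0 (eq_zero_of_nsmul (Γ := Γ) h6 v h5.symm)

/-- If `Γ / K` is abelian, the subgroups with cyclic quotient dominate `K`. -/
theorem dominates_of_abelian {Γ ι : Type} [Group Γ] [Finite Γ] (H : ι → Subgroup Γ)
    (K : Subgroup Γ) (hab : ∀ g h : Γ, g * h * g⁻¹ * h⁻¹ ∈ K)
    (hfam : ∀ S : Subgroup Γ, K ≤ S → (∃ g, ∀ x, ∃ n : ℤ, x * g ^ n ∈ S) → ∃ j, H j = S) :
    Dominates H K := by
  intro V _ _ hS hV
  obtain ⟨v, hv0, hvK⟩ := hV
  have hnormal : ∀ k ∈ K, ∀ g, g⁻¹ * k * g ∈ K := by
    intro k hk g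
    have h1 : g⁻¹ * k * g = (g⁻¹ * k * g⁻¹⁻¹ * k⁻¹) * k := by group
    rw [h1]
    exact K.mul_mem (hab g⁻¹ k) hk
  let N : Submodule (MonoidAlgebra ℝ Γ) V :=
    { carrier := {w | Fixes K w}
      add_mem' := fun {x y} hx hy k hk => by rw [smul_add, hx k hk, hy k hk]
      zero_mem' := fun k _ => smul_zero _
      smul_mem' := fun c x hx => by
        refine MonoidAlgebra.induction_on (motive := fun c => Fixes K (c • x)) c ?_ ?_ ?_
        · intro g k hk
          have h1 : k * g = g * (g⁻¹ * k * g) := by group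
          rw [smul_smul, ← map_mul, h1, map_mul, mul_smul, hx _ (hnormal k hk g)]
        · intro a b ha hb k hk
          rw [add_smul, smul_add, ha k hk, hb k hk]
        · intro t a ha k hk
          have h1 : (t • a) • x = algebraMap ℝ (MonoidAlgebra ℝ Γ) t • (a • x) := by
            rw [Algebra.smul_def, mul_smul]
          rw [h1, smul_smul, ← Algebra.commutes, mul_smul, ha k hk] }
  have hN : N = ⊤ := by
    rcases eq_bot_or_eq_top N with h | h
    · exact absurd ((Submodule.mem_bot _).1 (h ▸ (show v ∈ N from hvK))) hv0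
    · exact h
  have htriv : ∀ w : V, Fixes K w := fun w => by
    have : w ∈ N := by
      rw [hN]
      trivial
    exact this
  let _ : Module ℝ V := Module.compHom V (algebraMap ℝ (MonoidAlgebra ℝ Γ))
  have hsm : ∀ (t : ℝ) (w : V), t • w = algebraMap ℝ (MonoidAlgebra ℝ Γ) t • w := fun _ _ => rfl
  let ρ : Representation ℝ Γ V :=
    { toFun := fun g =>
        { toFun := fun w => MonoidAlgebra.of ℝ Γ g • w
          map_add' := fun x y => smul_add _ x y
          map_smul' := fun t w => by
            rw [hsm, RingHom.id_apply, hsm, smul_smul, smul_smul, Algebra.commutes] }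
      map_one' := by
        ext w
        show MonoidAlgebra.of ℝ Γ 1 • w = w
        rw [map_one, one_smul]
      map_mul' := fun g h => by
        ext w
        show MonoidAlgebra.of ℝ Γ (g * h) • w =
          MonoidAlgebra.of ℝ Γ g • MonoidAlgebra.of ℝ Γ h • w
        rw [map_mul, mul_smul] }
  have hρ : ∀ g w, ρ g w = MonoidAlgebra.of ℝ Γ g • w := fun _ _ => rfl
  have hcomm : ∀ g h, ρ g * ρ h = ρ h * ρ g := by
    intro g h
    have h2 : g * h = g * h * g⁻¹ * h⁻¹ * (h * g) := by group
    rw [← map_mul, ← map_mul]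
    ext w
    rw [hρ, hρ, h2, map_mul, mul_smul, htriv _ _ (hab g h)]
  obtain ⟨w, hw, g, hg⟩ := exists_cyclic_stabilizer ρ hcomm v hv0
  let S : Subgroup Γ :=
    { carrier := {x | ρ x w = w}
      mul_mem' := by
        intro a b ha hb
        show ρ (a * b) w = w
        rw [map_mul, Module.End.mul_apply, show ρ b w = w from hb, show ρ a w = w from ha]
      one_mem' := by
        show ρ 1 w = w
        rw [map_one]
        rfl
      inv_mem' := by
        intro a ha
        show ρ a⁻¹ w = w
        conv_lhs => rw [← (show ρ a w = w from ha)]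
        rw [← Module.End.mul_apply, ← map_mul, inv_mul_cancel, map_one]
        rfl }
  obtain ⟨j, hj⟩ := hfam S (fun k hk => htriv w k hk) ⟨g, fun x => hg x⟩
  refine ⟨j, w, hw, fun h hh => ?_⟩
  rw [hj] at hh
  exact hh

end Helper94GR
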