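import Pool.Agent.helper94.GR.Defs
import Pool.Agent.helper94.GR.Grp
import Pool.Agent.helper69.GA.Main

/-!
# Q1 and models of quotients
-/

open AlgebraicGeometry CategoryTheory CategoryTheory.Limits Helper77Reg Helper69ZC Helper69GA

namespace Helper94GR

/-- An element of the ideal generated by the norms is a finite sum. -/
theorem exists_sum {Γ ι : Type} [Group Γ] [Finite Γ] (H : ι → Subgroup Γ)
    (r : MonoidAlgebra ℝ Γ) (hr : r ∈ idl H) :
    ∃ (n : ℕ) (k : Fin n → ι) (g : Fin n → Γ) (s : Fin n → MonoidAlgebra ℝ Γ),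
      r = ∑ m, s m * (nrm (H (k m)) * MonoidAlgebra.of ℝ Γ (g m)) := by
  obtain ⟨n, s, x, hx⟩ := (Submodule.mem_span_set' (R := MonoidAlgebra ℝ Γ)).1 hr
  have h1 : ∀ m, ∃ (j : ι) (g : Γ),
      (x m : MonoidAlgebra ℝ Γ) = nrm (H j) * MonoidAlgebra.of ℝ Γ g := fun m => (x m).2
  choose k g hkg using h1
  refine ⟨n, k, g, s, ?_⟩
  rw [← hx]
  exact Finset.sum_congr rfl fun m _ => by rw [hkg m, smul_eq_mul]

theorem op_nrm_apply {Γ : Type} [Group Γ] [Finite Γ] {A : ModuleCat.{0} ℝ}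
    (ρ : Γ →* Module.End ℝ A) (K : Subgroup Γ) (x : A) (hx : ∀ k ∈ K, ρ k x = x) :
    op ρ (nrm K) x = (Nat.card K : ℝ) • x := by
  let _ := Fintype.ofFinite K
  show op ρ (∑ h : K, MonoidAlgebra.of ℝ Γ h) x = _
  rw [map_sum, LinearMap.sum_apply]
  have e2 : ∀ h ∈ (Finset.univ : Finset K), op ρ (MonoidAlgebra.of ℝ Γ (h : Γ)) x = x :=
    fun h _ => by rw [op_of, hx h h.2]
  rw [Finset.sum_congr rfl e2, Finset.sum_const, Finset.card_univ, Nat.card_eq_fintype_card,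
    Nat.cast_smul_eq_nsmul]

/-- The norm of `H` factors through a model of the quotient by `H`. -/
theorem norm_factors {G : GysinData} (hG : IsGysinTheory G) (hQ : QuotientFormula G) {Γ : Type}
    [Group Γ] [Finite Γ] {X Y : Scheme.{0}} {d : ℕ} (hX : IsArithmetic X d)
    (hY : IsArithmetic Y d) {ρ : Γ → (X ⟶ X)} (hρ : IsAction ρ)
    (H : Subgroup Γ) (D : Diagram X Y) (hm : IsModel ρ H D d) (p q : ℤ)
    (hpq : IsIso D.w ∨ Low d p q) :
    ∃ v : Mor (G.reg Y p q) (G.reg X p q),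
      (∀ x, v.a ((G.push D.b p q p q).a ((G.pull D.a p q).a x)) =
        op (action hG hX hρ p q).a (nrm H) x) ∧
      ∀ x, v.b ((G.push D.b p q p q).b ((G.pull D.a p q).b x)) =
        op (action hG hX hρ p q).b (nrm H) x := by
  let _ := Fintype.ofFinite H
  obtain ⟨h1, h2⟩ := hQ ρ H D hρ hX hY hm p q hpq
  have h5 : ((D.a.residueDegree D.η : ℝ) * (D.b.residueDegree D.η : ℝ)) ≠ 0 := by
    exact_mod_cast mul_ne_zero hm.overX.2.2 hm.overY.2.2
  set c : ℝ := ((D.a.residueDegree D.η : ℝ) * (D.b.residueDegree D.η : ℝ)) with hc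
  refine ⟨⟨c⁻¹ • (Fintype.card H : ℝ) • ((G.push D.a p q p q).a ∘ₗ (G.pull D.b p q).a),
    c⁻¹ • (Fintype.card H : ℝ) • ((G.push D.a p q p q).b ∘ₗ (G.pull D.b p q).b), ?_⟩, ?_, ?_⟩
  · intro x
    show (G.reg X p q).f (c⁻¹ • (Fintype.card H : ℝ) •
        (G.push D.a p q p q).a ((G.pull D.b p q).a x)) =
      c⁻¹ • (Fintype.card H : ℝ) •
        (G.push D.a p q p q).b ((G.pull D.b p q).b ((G.reg Y p q).f x))
    rw [map_smul, map_smul, (G.push D.a p q p q).hom, (G.pull D.b p q).hom]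
  · intro x
    show c⁻¹ • (Fintype.card H : ℝ) • (around G D p q).a x =
      op (action hG hX hρ p q).a (∑ h : H, MonoidAlgebra.of ℝ Γ h) x
    rw [h1, smul_smul, inv_mul_cancel₀ h5, one_smul, map_sum, LinearMap.sum_apply]
    refine Finset.sum_congr rfl fun h _ => ?_
    rw [op_of]
    rfl
  · intro x
    show c⁻¹ • (Fintype.card H : ℝ) • (around G D p q).b x =
      op (action hG hX hρ p q).b (∑ h : H, MonoidAlgebra.of ℝ Γ h) x
    rw [h2, smul_smul, inv_mul_cancel₀ h5, one_smul, map_sum, LinearMap.sum_apply]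
    refine Finset.sum_congr rfl fun h _ => ?_
    rw [op_of]
    rfl

/-- The image of a generic point under an automorphism. -/
theorem generic_action {Γ : Type} [Group Γ] {X : Scheme.{0}} {ρ : Γ → (X ⟶ X)}
    (hρ : IsAction ρ) (k : Γ) {ξ : X} (hξ : IsGenericPoint ξ Set.univ) :
    IsGenericPoint (ρ k ξ) Set.univ := by
  have h1 := hξ.image (ρ k).continuous
  have h2 : (ρ k : X → X) '' Set.univ = Set.univ := by
    rw [Set.image_univ, Set.range_eq_univ]
    intro x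
    refine ⟨ρ k⁻¹ x, ?_⟩
    rw [← Scheme.Hom.comp_apply, ← hρ.mul, mul_inv_cancel, hρ.one]
    rfl
  rw [h2, closure_univ] at h1
  exact h1

/-- Pull-backs from `X` are invariant under automorphisms over `X`. -/
theorem invariant_pull {G : GysinData} (hG : IsGysinTheory G) {Γ : Type} [Group Γ]
    {X X' : Scheme.{0}} {d : ℕ} (hX : IsArithmetic X d) (hX' : IsArithmetic X' d)
    {ρ : Γ → (X' ⟶ X')} (hρ : IsAction ρ) (f : X' ⟶ X) (ξ : X')
    (hξ : IsGenericPoint ξ Set.univ) (k : Γ) (hk : ρ k ≫ f = f) (p q : ℤ) :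
    (∀ x, (G.push (ρ k) p q p q).a ((G.pull f p q).a x) = (G.pull f p q).a x) ∧
      ∀ x, (G.push (ρ k) p q p q).b ((G.pull f p q).b x) = (G.pull f p q).b x := by
  have h1 : G.pull f p q = (G.pull f p q).comp (G.pull (ρ k) p q) := by
    conv_lhs => rw [← hk]
    exact hG.pull_comp (ρ k) f hX' hX' hX p q
  have hd : (ρ k).residueDegree ξ = 1 := by
    refine residueDegree_eq_one_of_section (ρ k) (ρ k⁻¹) ?_ ξ
    rw [← hρ.mul, inv_mul_cancel, hρ.one]
  obtain ⟨ha, hb⟩ := push_pull hG hX' hX' (ρ k) ξ hξ (generic_action hρ k hξ) p q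
  rw [hd, Nat.cast_one] at ha hb
  constructor
  · intro x
    have h2 : (G.pull f p q).a x = (G.pull (ρ k) p q).a ((G.pull f p q).a x) := by
      conv_lhs => rw [h1]
      rfl
    conv_lhs => rw [h2]
    rw [ha, one_smul]
  · intro x
    have h2 : (G.pull f p q).b x = (G.pull (ρ k) p q).b ((G.pull f p q).b x) := by
      conv_lhs => rw [h1]
      rfl
    conv_lhs => rw [h2]
    rw [hb, one_smul]

/-- If `t` is onto and kills the image of a map with cokernel `ℝ`, the kernel of `t` is the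
image. -/
theorem mem_range_of_trace {F : LinMap} (hF : F.CokernelReal) (t : F.B →ₗ[ℝ] ℝ)
    (ht : Function.Surjective t) (h0 : ∀ x, t (F.f x) = 0) (u : F.B) (hu : t u = 0) :
    u ∈ LinearMap.range F.f := by
  obtain ⟨τ, _, hex, hs⟩ := hF
  obtain ⟨e, he⟩ := hs 1
  have h1 : ∀ z, ∃ x, F.f x = z - τ z • e := by
    intro z
    apply (hex _).1
    rw [map_sub, map_smul, he, smul_eq_mul, mul_one, sub_self]
  have h2 : t e ≠ 0 := by
    intro h
    obtain ⟨z, hz⟩ := ht 1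
    obtain ⟨x, hx⟩ := h1 z
    have h3 := h0 x
    rw [hx, map_sub, map_smul, h, smul_zero, sub_zero, hz] at h3
    exact one_ne_zero h3
  obtain ⟨x, hx⟩ := h1 u
  have h3 := h0 x
  rw [hx, map_sub, map_smul, hu, zero_sub, neg_eq_zero, smul_eq_mul] at h3
  have h4 : τ u = 0 := (mul_eq_zero.1 h3).resolve_right h2
  rw [h4, zero_smul, sub_zero] at hx
  exact ⟨x, hx⟩

/-- A family of linear maps to the sources of a family. -/
def toPi {n : ℕ} {M : ModuleCat.{0} ℝ} (N : Fin n → ModuleCat.{0} ℝ) (u : ∀ m, M →ₗ[ℝ] N m) :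
    M →ₗ[ℝ] ModuleCat.of ℝ (∀ m, N m) :=
  (LinearMap.pi u : M →ₗ[ℝ] ∀ m, N m)

/-- The sum of a family of linear maps. -/
def fromPi {n : ℕ} {M : ModuleCat.{0} ℝ} (N : Fin n → ModuleCat.{0} ℝ) (v : ∀ m, N m →ₗ[ℝ] M) :
    ModuleCat.of ℝ (∀ m, N m) →ₗ[ℝ] M :=
  (∑ m, v m ∘ₗ LinearMap.proj m : (∀ m, N m) →ₗ[ℝ] M)

theorem fromPi_apply {n : ℕ} {M : ModuleCat.{0} ℝ} (N : Fin n → ModuleCat.{0} ℝ)
    (v : ∀ m, N m →ₗ[ℝ] M) (y : ∀ m, N m) : fromPi N v y = ∑ m, v m (y m) := by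
  show (∑ m, v m ∘ₗ LinearMap.proj m : (∀ m, N m) →ₗ[ℝ] M) y = _
  rw [LinearMap.sum_apply]
  rfl

/-- If the norms of the groups `H j` factor through the linear maps `E j`, a linear map which is a
retract of the part fixed by `K` is a retract of a finite sum of copies of the `E j`. -/
theorem retract_of_sum {Γ ι : Type} [Group Γ] [Finite Γ] {F R : LinMap} (ρ : Action Γ F)
    (H : ι → Subgroup Γ) (K : Subgroup Γ) (hKH : nrm K ∈ idl H) (E : ι → LinMap)
    (hE : ∀ j, ∃ (u : Mor F (E j)) (v : Mor (E j) F),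
      (∀ x, v.a (u.a x) = op ρ.a (nrm (H j)) x) ∧ ∀ x, v.b (u.b x) = op ρ.b (nrm (H j)) x)
    (s : Mor R F) (t : Mor F R) (c : ℝ) (hc : c ≠ 0) (hta : ∀ x, t.a (s.a x) = c • x)
    (htb : ∀ x, t.b (s.b x) = c • x) (hsa : ∀ k ∈ K, ∀ x, ρ.a k (s.a x) = s.a x)
    (hsb : ∀ k ∈ K, ∀ x, ρ.b k (s.b x) = s.b x) :
    ∃ (n : ℕ) (k : Fin n → ι), R.IsRetractOf (LinMap.pi fun m => E (k m)) := by
  obtain ⟨n, k, g, y, hy⟩ := exists_sum H _ hKH
  choose u v hua hub using hE
  have hK0 : (Nat.card K : ℝ) ≠ 0 := by exact_mod_cast Nat.card_pos.ne'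
  have hC : (Nat.card K : ℝ) * c ≠ 0 := mul_ne_zero hK0 hc
  refine ⟨n, k, toPi (fun m => (E (k m)).A) fun m => (u (k m)).a ∘ₗ ρ.a (g m) ∘ₗ s.a,
    ((Nat.card K : ℝ) * c)⁻¹ •
      fromPi (fun m => (E (k m)).A) (fun m => t.a ∘ₗ op ρ.a (y m) ∘ₗ (v (k m)).a),
    toPi (fun m => (E (k m)).B) fun m => (u (k m)).b ∘ₗ ρ.b (g m) ∘ₗ s.b,
    ((Nat.card K : ℝ) * c)⁻¹ •
      fromPi (fun m => (E (k m)).B) (fun m => t.b ∘ₗ op ρ.b (y m) ∘ₗ (v (k m)).b),
    ?_, ?_, ?_, ?_⟩
  · intro x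
    funext m
    show (E (k m)).f ((u (k m)).a (ρ.a (g m) (s.a x))) =
      (u (k m)).b (ρ.b (g m) (s.b (R.f x)))
    rw [(u (k m)).hom, ρ.hom, s.hom]
  · intro x
    show R.f (((Nat.card K : ℝ) * c)⁻¹ •
        fromPi (fun m => (E (k m)).A) (fun m => t.a ∘ₗ op ρ.a (y m) ∘ₗ (v (k m)).a) x) =
      ((Nat.card K : ℝ) * c)⁻¹ •
        fromPi (fun m => (E (k m)).B) (fun m => t.b ∘ₗ op ρ.b (y m) ∘ₗ (v (k m)).b)
          ((LinMap.pi fun m => E (k m)).f x)
    rw [map_smul]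
    congr 1
    rw [fromPi_apply (fun m => (E (k m)).A) _ x, fromPi_apply (fun m => (E (k m)).B) _
      ((LinMap.pi fun m => E (k m)).f x), map_sum]
    refine Finset.sum_congr rfl fun m _ => ?_
    show R.f (t.a (op ρ.a (y m) ((v (k m)).a _))) =
      t.b (op ρ.b (y m) ((v (k m)).b ((E (k m)).f _)))
    rw [t.hom, op_hom, (v (k m)).hom]
    rfl
  · intro x
    show ((Nat.card K : ℝ) * c)⁻¹ •
        fromPi (fun m => (E (k m)).A) (fun m => t.a ∘ₗ op ρ.a (y m) ∘ₗ (v (k m)).a)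
          (fun m => (u (k m)).a (ρ.a (g m) (s.a x))) = x
    rw [fromPi_apply]
    have h1 : ∀ m ∈ (Finset.univ : Finset (Fin n)),
        (t.a ∘ₗ op ρ.a (y m) ∘ₗ (v (k m)).a) ((u (k m)).a (ρ.a (g m) (s.a x))) =
        t.a (op ρ.a (y m * (nrm (H (k m)) * MonoidAlgebra.of ℝ Γ (g m))) (s.a x)) := by
      intro m _
      show t.a (op ρ.a (y m) ((v (k m)).a ((u (k m)).a (ρ.a (g m) (s.a x))))) = _
      rw [hua, map_mul, map_mul, Module.End.mul_apply, Module.End.mul_apply, op_of]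
    rw [Finset.sum_congr rfl h1, ← map_sum, ← LinearMap.sum_apply, ← map_sum, ← hy,
      op_nrm_apply ρ.a K _ fun k hk => hsa k hk x, map_smul, hta, smul_smul, smul_smul,
      mul_assoc, inv_mul_cancel₀ hC, one_smul]
  · intro x
    show ((Nat.card K : ℝ) * c)⁻¹ •
        fromPi (fun m => (E (k m)).B) (fun m => t.b ∘ₗ op ρ.b (y m) ∘ₗ (v (k m)).b)
          (fun m => (u (k m)).b (ρ.b (g m) (s.b x))) = x
    rw [fromPi_apply]
    have h1 : ∀ m ∈ (Finset.univ : Finset (Fin n)),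
        (t.b ∘ₗ op ρ.b (y m) ∘ₗ (v (k m)).b) ((u (k m)).b (ρ.b (g m) (s.b x))) =
        t.b (op ρ.b (y m * (nrm (H (k m)) * MonoidAlgebra.of ℝ Γ (g m))) (s.b x)) := by
      intro m _
      show t.b (op ρ.b (y m) ((v (k m)).b ((u (k m)).b (ρ.b (g m) (s.b x))))) = _
      rw [hub, map_mul, map_mul, Module.End.mul_apply, Module.End.mul_apply, op_of]
    rw [Finset.sum_congr rfl h1, ← map_sum, ← LinearMap.sum_apply, ← map_sum, ← hy,
      op_nrm_apply ρ.b K _ fun k hk => hsb k hk x, map_smul, htb, smul_smul, smul_smul,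
      mul_assoc, inv_mul_cancel₀ hC, one_smul]

/-- A retract of a sum of injective maps is injective. -/
theorem injective_of_retract {n : ℕ} {R : LinMap} {E : Fin n → LinMap}
    (h : R.IsRetractOf (LinMap.pi E)) (hE : ∀ m, Function.Injective (E m).f) :
    Function.Injective R.f := by
  obtain ⟨a, a', b, b', h1, h2, h3, h4⟩ := h
  have hinj : Function.Injective (LinMap.pi E).f := by
    intro x y hxy
    funext m
    exact hE m (congrFun hxy m)
  intro x y hxy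
  have h5 : (LinMap.pi E).f (a x) = (LinMap.pi E).f (a y) := by rw [h1, h1, hxy]
  rw [← h3 x, hinj h5, h3]

section

variable {G : TraceData} (hG : IsGaloisTheory G) {X X' : Scheme.{0}} {d : ℕ}
  (hX : IsArithmetic X d) (hX' : IsArithmetic X' d) (f : X' ⟶ X) (ξ : X')
  (hξ : IsGenericPoint ξ Set.univ) (hfξ : IsGenericPoint (f ξ) Set.univ)
  (hf : f.residueDegree ξ ≠ 0) {Γ : Type} [Group Γ] [Finite Γ] {ρ : Γ → (X' ⟶ X')}
  (hρ : IsAction ρ) (K : Subgroup Γ) (hK : ∀ k ∈ K, ρ k ≫ f = f) {ι : Type}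
  (H : ι → Subgroup Γ) (hdom : Dominates H K)
  (Y : ι → Scheme.{0}) (hY : ∀ j, IsArithmetic (Y j) d)
  (hm : ∀ j, IsBirationalModel ρ (H j) (Y j) d)

include hG hX hX' f ξ hξ hfξ hf hρ hK hdom hY hm

theorem retract (p q : ℤ) (hpq : (∀ j, IsModelOver ρ (H j) (Y j) d) ∨ Low d p q) :
    IsRetractOfSum (G.reg X p q) fun j => G.reg (Y j) p q := by
  have hg := hG.gysin
  have hD : (f.residueDegree ξ : ℝ) ≠ 0 := by exact_mod_cast hf
  refine retract_of_sum (action hg hX' hρ p q) H K (nrm_mem H K hdom) (fun j => G.reg (Y j) p q)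
    (fun j => ?_) (G.pull f p q) (G.push f p q p q) _ hD (push_pull hg hX' hX f ξ hξ hfξ p q).1
    (push_pull hg hX' hX f ξ hξ hfξ p q).2
    (fun k hk => (invariant_pull hg hX hX' hρ f ξ hξ k (hK k hk) p q).1)
    (fun k hk => (invariant_pull hg hX hX' hρ f ξ hξ k (hK k hk) p q).2)
  rcases hpq with h | h
  · obtain ⟨D, hmj, hw⟩ := h j
    obtain ⟨v, h1, h2⟩ := norm_factors hg hG.quotient hX' (hY j) hρ (H j) D hmj p q (Or.inl hw)
    exact ⟨(G.pull D.a p q).comp (G.push D.b p q p q), v, h1, h2⟩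
  · obtain ⟨D, hmj⟩ := hm j
    obtain ⟨v, h1, h2⟩ := norm_factors hg hG.quotient hX' (hY j) hρ (H j) D hmj p q (Or.inr h)
    exact ⟨(G.pull D.a p q).comp (G.push D.b p q p q), v, h1, h2⟩

theorem bijective_of_models (p q : ℤ) (hpq : (∀ j, IsModelOver ρ (H j) (Y j) d) ∨ Low d p q)
    (hb : ∀ j, (G.reg (Y j) p q).Bijective) :
    (G.reg X p q).Bijective := by
  obtain ⟨n, k, h⟩ := retract hG hX hX' f ξ hξ hfξ hf hρ K hK H hdom Y hY hm p q hpq
  exact h.bijective (LinMap.bijective_pi fun m => hb (k m))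

theorem cokernelReal_of_models (hflat : IsFlat X) (hYflat : ∀ j, IsFlat (Y j))
    (hc : ∀ j, (G.reg (Y j) (2 * d - 1) d).CokernelReal) :
    (G.reg X (2 * d - 1) d).CokernelReal := by
  have hg := hG.gysin
  have hD : (f.residueDegree ξ : ℝ) ≠ 0 := by exact_mod_cast hf
  refine ⟨G.tr X d, ?_, fun w => ⟨fun hw => ?_, ?_⟩, hG.trace.onto hX hflat⟩
  · obtain ⟨n, k, h⟩ := retract hG hX hX' f ξ hξ hfξ hf hρ K hK H hdom
      Y hY hm (2 * d - 1) d (Or.inr ⟨rfl, Or.inl rfl⟩)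
    exact injective_of_retract h fun m => by
      obtain ⟨τ, hinj, _⟩ := hc (k m)
      exact hinj
  · have hy : ∀ r ∈ idl H, ∀ y, G.tr X' d y = 0 →
        op (action hg hX' hρ (2 * d - 1) d).b r y ∈ LinearMap.range (G.reg X' (2 * d - 1) d).f := by
      intro r hr y hy
      refine Submodule.span_induction (p := fun r _ =>
        op (action hg hX' hρ (2 * d - 1) d).b r y ∈
          LinearMap.range (G.reg X' (2 * d - 1) d).f) ?_ ?_ ?_ ?_ hr
      · rintro _ ⟨j, g, rfl⟩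
        obtain ⟨D, hmj⟩ := hm j
        obtain ⟨v, _, h2⟩ := norm_factors hg hG.quotient hX' (hY j) hρ (H j) D hmj
          (2 * d - 1) d (Or.inr ⟨rfl, Or.inl rfl⟩)
        rw [map_mul, Module.End.mul_apply, op_of, ← h2]
        have h3 : G.tr X' d ((action hg hX' hρ (2 * d - 1) d).b g y) = 0 := by
          show G.tr X' d ((G.push (ρ g) (2 * d - 1) d (2 * d - 1) d).b y) = 0
          rw [hG.trace.push (ρ g) hX' hX', hy]
        obtain ⟨x, hx⟩ := mem_range_of_trace (hc j) (G.tr (Y j) d)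
          (hG.trace.onto (hY j) (hYflat j)) (hG.trace.kills (hY j))
          ((G.push D.b (2 * d - 1) d (2 * d - 1) d).b ((G.pull D.a (2 * d - 1) d).b
            ((action hg hX' hρ (2 * d - 1) d).b g y))) (by
          rw [hG.trace.push D.b hmj.arithmetic (hY j), ← hG.trace.push D.a hmj.arithmetic hX',
            (push_pull hg hmj.arithmetic hX' D.a D.η hmj.overX.1 hmj.overX.2.1
              (2 * d - 1) d).2, map_smul, h3, smul_zero])
        exact ⟨v.a x, by rw [v.hom, hx]⟩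
      · rw [map_zero]
        exact Submodule.zero_mem _
      · intro s t _ _ hs ht
        rw [map_add, LinearMap.add_apply]
        exact Submodule.add_mem _ hs ht
      · rintro s t _ ⟨x, hx⟩
        rw [smul_eq_mul, map_mul, Module.End.mul_apply, ← hx, ← op_hom]
        exact ⟨_, rfl⟩
    have h1 := (push_pull hg hX' hX f ξ hξ hfξ (2 * d - 1) d).2 w
    obtain ⟨x, hx⟩ := hy (nrm K) (nrm_mem H K hdom) ((G.pull f (2 * d - 1) d).b w) (by
      rw [← hG.trace.push f hX' hX, h1, map_smul, hw, smul_zero])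
    rw [op_nrm_apply _ K _ fun k hk => (invariant_pull hg hX hX' hρ f ξ hξ k (hK k hk)
      (2 * d - 1) d).2 w] at hx
    have hK0 : (Nat.card K : ℝ) ≠ 0 := by exact_mod_cast Nat.card_pos.ne'
    refine ⟨(f.residueDegree ξ : ℝ)⁻¹ • (Nat.card K : ℝ)⁻¹ •
      (G.push f (2 * d - 1) d (2 * d - 1) d).a x, ?_⟩
    rw [map_smul, map_smul, (G.push f (2 * d - 1) d (2 * d - 1) d).hom, hx, map_smul, h1,
      smul_smul, smul_smul, smul_smul]
    rw [show (f.residueDegree ξ : ℝ)⁻¹ * (Nat.card K : ℝ)⁻¹ * (Nat.card K : ℝ) *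
        (f.residueDegree ξ : ℝ) = 1 by field_simp, one_smul]
  · rintro ⟨x, rfl⟩
    exact hG.trace.kills hX x

theorem questionAt_of_models (hflat : IsFlat X) (hYflat : ∀ j, IsFlat (Y j)) (i : ℕ)
    (hi : i ≤ 1 ∨ ∀ j, IsModelOver ρ (H j) (Y j) d)
    (hQ : ∀ j, QuestionAt G.toRegulatorData (Y j) d i) : QuestionAt G.toRegulatorData X d i := by
  by_cases h0 : i = 0
  · subst h0
    show (if (0 : ℕ) = 0 then (G.reg X (2 * d - 1) d).CokernelReal
      else (G.reg X (2 * d - 1 - (0 : ℕ)) d).Bijective)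
    rw [if_pos rfl]
    refine cokernelReal_of_models hG hX hX' f ξ hξ hfξ hf hρ K hK H hdom Y hY hm hflat
      hYflat fun j => ?_
    simpa [QuestionAt] using hQ j
  · show (if i = 0 then (G.reg X (2 * d - 1) d).CokernelReal
      else (G.reg X (2 * d - 1 - i) d).Bijective)
    rw [if_neg h0]
    refine bijective_of_models hG hX hX' f ξ hξ hfξ hf hρ K hK H hdom Y hY hm _ _ ?_
      fun j => ?_
    · rcases hi with hi | hi
      · refine Or.inr ⟨rfl, Or.inr ?_⟩
        have : i = 1 := by omega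
        subst this
        push_cast
        ring
      · exact Or.inl hi
    · have := hQ j
      rw [QuestionAt, if_neg h0] at this
      exact this

end

end Helper94GR
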